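import Mathlib

set_option autoImplicit false

namespace Pool.Agent.Y651.RR

/-- nine steps of the recurrence `x_n = (x_(n-1) + x_(n-2) / 20) / (x_(n-2) + x_(n-4))` -/
theorem cycle (t2 t3 t4 a e L x2 x3 x4 x5 x6 x7 x8 x9 : ℝ) (h2 : 0 < t2) (h3 : 0 < t3) (h4 : 0 < t4)
    (ha1 : 12 ≤ a) (ha2 : a ≤ 20) (he : e ≤ 1 / 1000) (h24 : t2 + t4 ≤ e) (h3e : t3 ≤ e)
    (pL : 0 < L) (p2 : 0 < x2) (p3 : 0 < x3) (p4 : 0 < x4) (p5 : 0 < x5) (p6 : 0 < x6) (p7 : 0 < x7)
    (p8 : 0 < x8)
    (e1 : L * (t4 + t2) = a + t4 / 20) (e2 : x2 * (a + t3) = L + a / 20)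
    (e3 : x3 * (L + t4) = x2 + L / 20) (e4 : x4 * (x2 + a) = x3 + x2 / 20)
    (e5 : x5 * (x3 + L) = x4 + x3 / 20) (e6 : x6 * (x4 + x2) = x5 + x4 / 20)
    (e7 : x7 * (x5 + x3) = x6 + x5 / 20) (e8 : x8 * (x6 + x4) = x7 + x6 / 20)
    (e9 : x9 * (x7 + x5) = x8 + x7 / 20) :
    a ≤ L * e ∧ 12 ≤ x9 ∧ x9 ≤ 20 ∧ x6 + x8 ≤ 3 / 4 * e ∧ x7 ≤ 3 / 4 * e := by
  have he0 : 0 < e := by linarith only [h2, h4, h24]
  have t4s : t4 ≤ 1 / 1000 := by linarith only [h2, h24, he]
  have t3s : t3 ≤ 1 / 1000 := by linarith only [h3e, he]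
  have pa : 0 < a := by linarith only [ha1]
  have b1 : a ≤ L * e := by
    have : L * (t4 + t2) ≤ L * e := mul_le_mul_of_nonneg_left (by linarith only [h24]) pL.le
    linarith only [this, e1, h4]
  have bL : 12000 ≤ L := by
    have : L * e ≤ L * (1 / 1000) := mul_le_mul_of_nonneg_left he pL.le
    linarith only [this, b1, ha1]
  -- x2
  have b2 : x2 * a ≤ L + a / 20 := by
    have := mul_pos p2 h3
    linarith only [this, e2]
  have c2 : L ≤ x2 * 20.001 := by
    have : x2 * (a + t3) ≤ x2 * 20.001 :=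
      mul_le_mul_of_nonneg_left (by linarith only [ha2, t3s]) p2.le
    linarith only [this, e2, pa]
  have c2' : x2 * 12 ≤ L + 1 := by
    have : x2 * 12 ≤ x2 * a := mul_le_mul_of_nonneg_left ha1 p2.le
    linarith only [this, b2, ha2]
  -- x3
  have b3 : x3 * L ≤ x2 + L / 20 := by
    have := mul_pos p3 h4
    linarith only [this, e3]
  have c3 : x3 ≤ 0.1334 := by
    by_contra hh
    push Not at hh
    have : 0.1334 * L ≤ x3 * L := mul_le_mul_of_nonneg_right hh.le pL.le
    linarith only [this, b3, c2', bL]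
  have c3' : 0.0998 ≤ x3 := by
    by_contra hh
    push Not at hh
    have h5 : x3 * (L + t4) ≤ 0.0998 * (L + t4) :=
      mul_le_mul_of_nonneg_right hh.le (by linarith only [pL, h4])
    linarith only [h5, e3, c2, bL, t4s]
  -- x4
  have c4 : x4 ≤ 0.05 := by
    by_contra hh
    push Not at hh
    have h5 : 0.05 * (x2 + a) < x4 * (x2 + a) :=
      mul_lt_mul_of_pos_right hh (by linarith only [p2, pa])
    linarith only [h5, e4, c3, ha1]
  have c4' : 0.048 ≤ x4 := by
    by_contra hh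
    push Not at hh
    have h5 : x4 * (x2 + a) ≤ 0.048 * (x2 + a) :=
      mul_le_mul_of_nonneg_right hh.le (by linarith only [p2, pa])
    linarith only [h5, e4, p3, ha2, c2, bL]
  -- x5
  have b5 : x5 * L ≤ 0.0567 := by
    have := mul_pos p5 p3
    linarith only [this, e5, c4, c3]
  have c5 : x5 ≤ 0.000005 := by
    by_contra hh
    push Not at hh
    have h5 : 0.000005 * L ≤ x5 * L := mul_le_mul_of_nonneg_right hh.le pL.le
    linarith only [h5, b5, bL]
  have b5' : 0.052 ≤ x5 * L := by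
    have h5 : x5 * x3 ≤ 0.000005 * x3 := mul_le_mul_of_nonneg_right c5 p3.le
    linarith only [h5, e5, c4', c3', c3]
  -- x6
  have b6 : x6 * x2 = x5 + x4 / 20 - x6 * x4 := by linarith only [e6]
  have b6a : x6 * L + x6 * a / 20 = (x5 + x4 / 20 - x6 * x4) * (a + t3) := by
    rw [← b6]
    linear_combination (-x6) * e2
  have c6 : x6 * L ≤ 0.00252 * a := by
    have h4 := mul_pos p6 p4
    have h5 : (x5 + x4 / 20 - x6 * x4) * (a + t3) ≤ 0.002505 * (a + t3) :=
      mul_le_mul_of_nonneg_right (by linarith only [h4, c5, c4]) (by linarith only [pa, h3])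
    have h6 := mul_pos p6 pa
    linarith only [h5, h6, b6a, t3s, ha1]
  have c6s : x6 ≤ 0.00001 := by
    by_contra hh
    push Not at hh
    have h5 : 0.00001 * L ≤ x6 * L := mul_le_mul_of_nonneg_right hh.le pL.le
    linarith only [h5, c6, bL, ha2]
  have c6' : 0.0023 * a ≤ x6 * L := by
    have h5 : x6 * x4 ≤ 0.00001 * x4 := mul_le_mul_of_nonneg_right c6s p4.le
    have h6 : 0.00239 * (a + t3) ≤ (x5 + x4 / 20 - x6 * x4) * (a + t3) :=
      mul_le_mul_of_nonneg_right (by linarith only [h5, p5, c4', c4]) (by linarith only [pa, h3])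
    have h7 : x6 * a ≤ 0.00001 * a := mul_le_mul_of_nonneg_right c6s pa.le
    linarith only [h6, h7, b6a, h3, ha1]
  -- x7
  have b7 : (x7 * L) * (x5 + x3) = x6 * L + x5 * L / 20 := by linear_combination L * e7
  have pL7 : 0 < x7 * L := mul_pos p7 pL
  have c7 : x7 * L ≤ 0.0277 * a := by
    by_contra hh
    push Not at hh
    have h5 : (0.0277 * a) * 0.0998 ≤ (x7 * L) * (x5 + x3) :=
      mul_le_mul hh.le (by linarith only [c3', p5]) (by norm_num) pL7.le
    linarith only [h5, b7, c6, b5, ha1]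
  have c7' : 0.22 ≤ x7 * L := by
    by_contra hh
    push Not at hh
    have h5 : (x7 * L) * (x5 + x3) ≤ 0.22 * 0.1335 :=
      mul_le_mul hh.le (by linarith only [c3, c5]) (by linarith only [p5, p3]) (by norm_num)
    linarith only [h5, b7, c6', b5', ha1]
  have d6 : x6 ≤ 0.00252 * e := by
    by_contra hh
    push Not at hh
    have h5 : (0.00252 * e) * L < x6 * L := mul_lt_mul_of_pos_right hh pL
    linarith only [h5, c6, b1]
  have d7 : x7 ≤ 0.0277 * e := by
    by_contra hh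
    push Not at hh
    have h5 : (0.0277 * e) * L < x7 * L := mul_lt_mul_of_pos_right hh pL
    linarith only [h5, c7, b1]
  have d8 : x8 ≤ 0.6 * e := by
    by_contra hh
    push Not at hh
    have h5 : (0.6 * e) * 0.048 ≤ x8 * (x6 + x4) :=
      mul_le_mul hh.le (by linarith only [p6, c4']) (by norm_num) p8.le
    linarith only [h5, e8, d7, d6, he0]
  have b8 : 19.9 * x7 ≤ x8 := by
    have h5 : x8 * (x6 + x4) ≤ x8 * 0.0501 :=
      mul_le_mul_of_nonneg_left (by linarith only [c6s, c4]) p8.le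
    linarith only [h5, e8, p6, p7]
  have b8' : x8 * 0.048 ≤ x7 + x6 / 20 := by
    have h5 : x8 * 0.048 ≤ x8 * (x6 + x4) :=
      mul_le_mul_of_nonneg_left (by linarith only [p6, c4']) p8.le
    linarith only [h5, e8]
  refine ⟨b1, ?_, ?_, by linarith only [d6, d8, he0], by linarith only [d7, he0]⟩
  · by_contra hh
    push Not at hh
    have h5 : x9 * (x7 + x5) < 12 * (x7 + x5) :=
      mul_lt_mul_of_pos_right hh (by linarith only [p7, p5])
    have h6 : 7.9 * x7 < 12 * x5 := by linarith only [h5, e9, b8, p7]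
    have h7 : (7.9 * x7) * L < (12 * x5) * L := mul_lt_mul_of_pos_right h6 pL
    linarith only [h7, c7', b5]
  · by_contra hh
    push Not at hh
    have h5 : 20 * (x7 + x5) < x9 * (x7 + x5) :=
      mul_lt_mul_of_pos_right hh (by linarith only [p7, p5])
    have h6 : 20 * x5 < 0.9 * x7 + 1.05 * x6 := by linarith only [h5, e9, b8', p7, p6]
    have h7 : (20 * x5) * L < (0.9 * x7 + 1.05 * x6) * L := mul_lt_mul_of_pos_right h6 pL
    have h8 : (0.9 * x7 + 1.05 * x6) * L = 0.9 * (x7 * L) + 1.05 * (x6 * L) := by ring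
    rw [h8] at h7
    linarith only [h7, c7, c6, b5', ha2]

end Pool.Agent.Y651.RR
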